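import Pool.Agent.Helper97_WHC.StmtC

/-!
# Squad WHC, row TUR
-/

set_option autoImplicit false

open scoped BigOperators

namespace Pool.Agent.WHC.H41

theorem tur (hR : RcgStmt) (hN : NewStmt) : TurStmt := by
  intro h hh
  obtain ⟨g, rfl⟩ : ∃ g, h = g + 1 := ⟨h - 1, by omega⟩
  obtain ⟨D, hD, hR⟩ := hR g
  obtain ⟨c, hc, hN⟩ := hN (g + 1) hh
  have hK : 0 < 2 * D * ((g : ℝ) + 1) ^ g := by positivity
  refine ⟨c / (2 * D * ((g : ℝ) + 1) ^ g), by positivity, ?_⟩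
  intro z ρ hρ hz hj m hm
  have hm' : (0 : ℝ) < m := by exact_mod_cast hm
  have hm1 : (1 : ℝ) ≤ m := by exact_mod_cast hm
  rcases hρ.eq_or_lt with h0 | h0
  · refine ⟨m, le_rfl, by omega, ?_⟩
    rw [← h0, zero_pow (by omega), mul_zero]
    positivity
  by_contra hcon
  push Not at hcon
  have hρc : (ρ : ℂ) ≠ 0 := by exact_mod_cast h0.ne'
  have hnρ : ‖(ρ : ℂ)‖ = ρ := by
    rw [Complex.norm_real, Real.norm_of_nonneg hρ]
  set w : Fin (g + 1) → ℂ := fun j => z j / ρ with hw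
  have hw1 : ∀ j, ‖w j‖ ≤ 1 := by
    intro j
    simp only [hw, norm_div, hnρ]
    exact (div_le_one h0).2 (hz j)
  have hpow : ∀ k : ℕ, ‖∑ j, z j ^ k‖ = ρ ^ k * ‖∑ j, w j ^ k‖ := by
    intro k
    have e : ∑ j, z j ^ k = (ρ : ℂ) ^ k * ∑ j, w j ^ k := by
      rw [Finset.mul_sum]
      refine Finset.sum_congr rfl fun j _ => ?_
      rw [← mul_pow]
      simp only [hw]
      rw [mul_div_cancel₀ _ hρc]
    rw [e, norm_mul, norm_pow, hnρ]
  have hU : ∀ k, m ≤ k → k < m + (g + 1) →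
      ‖∑ j, w j ^ k‖ ≤ c / (2 * D * ((g : ℝ) + 1) ^ g) / (m : ℝ) ^ (g + 1) := by
    intro k h1 h2
    have h3 := hcon k h1 h2
    rw [hpow k] at h3
    have hρk : 0 < ρ ^ k := pow_pos h0 k
    rw [le_div_iff₀ (by positivity)]
    have h4 : ((m : ℝ) ^ (g + 1) * ‖∑ j, w j ^ k‖) * ρ ^ k <
        c / (2 * D * ((g : ℝ) + 1) ^ g) * ρ ^ k := by
      nlinarith [h3]
    have h5 := lt_of_mul_lt_mul_right h4 hρk.le
    nlinarith [h5]
  obtain ⟨j0, hj0⟩ := hj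
  obtain ⟨i, hi1, hi2, hi3⟩ := hN (fun j => w j ^ m) ⟨j0, by
    simp only [hw, norm_pow, norm_div, hnρ, hj0, div_self h0.ne', one_pow]⟩
  obtain ⟨i', rfl⟩ : ∃ i', i = i' + 1 := ⟨i - 1, by omega⟩
  have h6 := hR w hw1 m _ hU (m * i')
  have e1 : ∑ j, (w j ^ m) ^ (i' + 1) = ∑ j, w j ^ (m + m * i') := by
    refine Finset.sum_congr rfl fun j _ => ?_
    rw [← pow_mul]
    congr 1
    ring
  rw [e1] at hi3
  have h7 := hi3.trans h6
  have hi' : i' ≤ g := by omega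
  have h8 : ((m * i' : ℕ) : ℝ) + 1 ≤ ((g : ℝ) + 1) * m := by
    push_cast
    have : (i' : ℝ) ≤ g := by exact_mod_cast hi'
    nlinarith
  have h9 : (((m * i' : ℕ) : ℝ) + 1) ^ g ≤ (((g : ℝ) + 1) * m) ^ g :=
    pow_le_pow_left₀ (by positivity) h8 g
  have h10 : D * (((m * i' : ℕ) : ℝ) + 1) ^ g *
      (c / (2 * D * ((g : ℝ) + 1) ^ g) / (m : ℝ) ^ (g + 1)) ≤ c / 2 := by
    calc D * (((m * i' : ℕ) : ℝ) + 1) ^ g *
          (c / (2 * D * ((g : ℝ) + 1) ^ g) / (m : ℝ) ^ (g + 1))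
        ≤ D * (((g : ℝ) + 1) * m) ^ g *
          (c / (2 * D * ((g : ℝ) + 1) ^ g) / (m : ℝ) ^ (g + 1)) := by
            gcongr
      _ = c / 2 * (1 / m) := by
            rw [mul_pow, pow_succ]
            have a1 : ((g : ℝ) + 1) ^ g ≠ 0 := by positivity
            have a2 : (m : ℝ) ^ g ≠ 0 := by positivity
            field_simp
      _ ≤ c / 2 * 1 := by
            gcongr
            rw [div_le_one hm']
            exact hm1
      _ = c / 2 := mul_one _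
  linarith [h7, h10]

end Pool.Agent.WHC.H41
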